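import Mathlib

/-! Design of the defects `x l` and of the primes `q l`, and of the residue classes, for
MP_b5e119_nt. -/

set_option autoImplicit false

namespace Pool.Agent.K7.H69.GR

open Finset

/-- a prime `> B` which is `c` mod `b` -/
lemma exists_prime_mod (b B c : ℕ) (hb : 0 < b) (hc : c.Coprime b) :
    ∃ p : ℕ, p.Prime ∧ B < p ∧ p ≡ c [MOD b] := by
  have : NeZero b := ⟨hb.ne'⟩
  obtain ⟨p, hpB, hp, hp1⟩ := Nat.forall_exists_prime_gt_and_eq_mod
    ((ZMod.isUnit_iff_coprime c b).2 hc) B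
  exact ⟨p, hp, hpB, (ZMod.natCast_eq_natCast_iff _ _ _).1 hp1⟩

/-- a prime `> B` which is `1` mod `W` -/
lemma exists_prime_one_mod (W B : ℕ) (hW : 0 < W) : ∃ p : ℕ, p.Prime ∧ B < p ∧ W ∣ p - 1 := by
  obtain ⟨p, hp, hpB, hp1⟩ := exists_prime_mod W B 1 hW (Nat.coprime_one_left W)
  exact ⟨p, hp, hpB, (Nat.modEq_iff_dvd' hp.one_lt.le).1 hp1.symm⟩

structure Design (W1 : ℕ) (q x : ℕ → ℕ) : Prop where
  x0 : x 0 = 0
  xs : ∀ l, x (l + 1) + 1 = x l + q l
  prime : ∀ l, (q l).Prime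
  one_mod_W : ∀ l, W1 ∣ q l - 1
  one_mod : ∀ l t, l < t → q l ∣ q t - 1
  W_lt : ∀ l, W1 < q l
  big : ∀ l, 4 * x l + 10 < q l
  grow : ∀ l, 3 * q l < q (l + 1)

lemma exists_design (W1 : ℕ) (hW : 0 < W1) : ∃ q x, Design W1 q x := by
  have key : ∀ W B : ℕ, ∃ p : ℕ, 0 < W → p.Prime ∧ B < p ∧ W ∣ p - 1 := by
    intro W B
    by_cases h : 0 < W
    · obtain ⟨p, hp⟩ := exists_prime_one_mod W B h
      exact ⟨p, fun _ => hp⟩
    · exact ⟨0, fun h' => absurd h' h⟩
  choose F hF using key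
  let G : ℕ × ℕ → ℕ := fun s => F s.2 (3 * s.2 + 4 * s.1 + 10)
  let st : ℕ → ℕ × ℕ := fun l => Nat.rec (0, W1) (fun _ s => (s.1 + G s - 1, s.2 * G s)) l
  have st0 : st 0 = (0, W1) := rfl
  have sts : ∀ l, st (l + 1) = ((st l).1 + G (st l) - 1, (st l).2 * G (st l)) := fun l => rfl
  have hpos : ∀ l, 0 < (st l).2 := by
    intro l
    induction l with
    | zero => rw [st0]; exact hW
    | succ l ih =>
      rw [sts]
      exact Nat.mul_pos ih (hF _ _ ih).1.pos
  have hG : ∀ l, (G (st l)).Prime ∧ 3 * (st l).2 + 4 * (st l).1 + 10 < G (st l) ∧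
      (st l).2 ∣ G (st l) - 1 := fun l => hF _ _ (hpos l)
  have hW1 : ∀ l, W1 ∣ (st l).2 := by
    intro l
    induction l with
    | zero => rw [st0]
    | succ l ih =>
      rw [sts]
      exact Dvd.dvd.mul_right ih _
  have hq : ∀ l t, l < t → G (st l) ∣ (st t).2 := by
    intro l t hlt
    induction t, hlt using Nat.le_induction with
    | base => rw [sts]; exact Dvd.intro_left _ rfl
    | succ t _ ih => rw [sts]; exact Dvd.dvd.mul_right ih _
  refine ⟨fun l => G (st l), fun l => (st l).1, ?_, ?_, ?_, ?_, ?_, ?_, ?_, ?_⟩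
  · rw [st0]
  · intro l
    have h1 := (hG l).1.one_lt
    simp only [sts]
    omega
  · exact fun l => (hG l).1
  · exact fun l => (hW1 l).trans (hG l).2.2
  · exact fun l t hlt => (hq l t hlt).trans (hG t).2.2
  · intro l
    have h1 := Nat.le_of_dvd (hpos l) (hW1 l)
    have h2 := (hG l).2.1
    show W1 < G (st l)
    omega
  · intro l
    have h2 := (hG l).2.1
    show 4 * (st l).1 + 10 < G (st l)
    omega
  · intro l
    have h1 := Nat.le_of_dvd (hpos (l + 1)) (hq l (l + 1) (Nat.lt_succ_self l))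
    have h2 := (hG (l + 1)).2.1
    show 3 * G (st l) < G (st (l + 1))
    omega

namespace Design

variable {W1 : ℕ} {q x : ℕ → ℕ}

lemma x_lt (h : Design W1 q x) (l : ℕ) : x l < x (l + 1) := by
  have h1 := h.xs l
  have h2 := h.big l
  omega

lemma x_mono (h : Design W1 q x) : StrictMono x := strictMono_nat_of_lt_succ h.x_lt

lemma q_mono (h : Design W1 q x) : StrictMono q := by
  refine strictMono_nat_of_lt_succ (fun l => ?_)
  have := h.grow l
  omega

lemma q_odd (h : Design W1 q x) (l : ℕ) : Odd (q l) := by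
  refine (h.prime l).odd_of_ne_two ?_
  have := h.big l
  omega

lemma W_dvd (h : Design W1 q x) (t : ℕ) : (W1 : ℤ) ∣ x t := by
  induction t with
  | zero => rw [h.x0]; simp
  | succ t ih =>
    have h1 : ((x (t + 1) : ℕ) : ℤ) = x t + ((q t - 1 : ℕ) : ℤ) := by
      have h2 := h.xs t
      have h3 := (h.prime t).one_lt
      omega
    rw [h1]
    exact dvd_add ih (Int.natCast_dvd_natCast.2 (h.one_mod_W t))

lemma q_dvd (h : Design W1 q x) (l t : ℕ) (hlt : l < t) : (q l : ℤ) ∣ (x t : ℤ) - (x l - 1) := by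
  induction t, hlt using Nat.le_induction with
  | base =>
    have h1 : ((x (l + 1) : ℕ) : ℤ) - (x l - 1) = q l := by
      have h2 := h.xs l
      omega
    rw [h1]
  | succ t hlt ih =>
    have h1 : ((x (t + 1) : ℕ) : ℤ) - (x l - 1) = (x t - (x l - 1)) + ((q t - 1 : ℕ) : ℤ) := by
      have h2 := h.xs t
      have h3 := (h.prime t).one_lt
      omega
    rw [h1]
    exact dvd_add ih (Int.natCast_dvd_natCast.2 (h.one_mod l t hlt))

end Design

/-- an integer avoiding few residue classes -/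
lemma exists_avoid {r : ℕ} (hr : r.Prime) (T : Finset ℤ) (hT : T.card < r) :
    ∃ c : ℤ, ∀ t ∈ T, ¬ (r : ℤ) ∣ c + t := by
  classical
  have : Fact r.Prime := ⟨hr⟩
  have h1 : (T.image (fun t : ℤ => -(t : ZMod r))).card < (univ : Finset (ZMod r)).card := by
    rw [card_univ, ZMod.card]
    exact card_image_le.trans_lt hT
  obtain ⟨z, -, hz⟩ := exists_mem_notMem_of_card_lt_card h1
  refine ⟨(z.val : ℤ), fun t ht hdvd => hz ?_⟩
  rw [mem_image]
  refine ⟨t, ht, ?_⟩
  have h2 : ((((z.val : ℕ) : ℤ) + t : ℤ) : ZMod r) = 0 :=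
    (ZMod.intCast_zmod_eq_zero_iff_dvd _ _).2 hdvd
  push_cast at h2
  rw [ZMod.natCast_zmod_val] at h2
  exact (eq_neg_of_add_eq_zero_left h2).symm

/-- the conditions on the residue class of `M` mod `r` -/
structure Good (q x : ℕ → ℕ) (k : ℕ) (r : ℕ) (c : ℤ) : Prop where
  A : ∀ i m j, i ≤ m → m < j → j < k → r < q m → ¬ (r : ℤ) ∣ c + 2 * x i + x j - x m
  B : ∀ m j, m < j → j < k → r = q m → (r : ℤ) ∣ c + x j + x m
  C : ∀ i, i < k → ¬ (r : ℤ) ∣ c + 2 * x i

lemma Good.congr {q x : ℕ → ℕ} {k r : ℕ} {c c' : ℤ} (h : Good q x k r c)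
    (hcc : (r : ℤ) ∣ c' - c) : Good q x k r c' := by
  refine ⟨fun i m j h1 h2 h3 h4 h5 => h.A i m j h1 h2 h3 h4 ?_,
    fun m j h1 h2 h3 => ?_, fun i h1 h2 => h.C i h1 ?_⟩
  · have e : c + 2 * x i + x j - x m = (c' + 2 * x i + x j - x m) - (c' - c) := by ring
    rw [e]; exact dvd_sub h5 hcc
  · have e : c' + x j + x m = (c + x j + x m) + (c' - c) := by ring
    rw [e]; exact dvd_add (h.B m j h1 h2 h3) hcc
  · have e : c + 2 * x i = (c' + 2 * x i) - (c' - c) := by ring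
    rw [e]; exact dvd_sub h2 hcc

/-- primes dividing `W1` -/
lemma good_of_dvd {W1 : ℕ} {q x : ℕ → ℕ} (h : Design W1 q x) (hW : 0 < W1) (k : ℕ) {r : ℕ}
    (hr : r.Prime) (hrW : r ∣ W1) {c0 : ℕ} (hc0 : c0.Prime) (hcW : W1 < c0) :
    Good q x k r c0 := by
  have hrW' : (r : ℤ) ∣ W1 := Int.natCast_dvd_natCast.2 hrW
  have hx : ∀ t, (r : ℤ) ∣ x t := fun t => hrW'.trans (h.W_dvd t)
  have hle := Nat.le_of_dvd hW hrW
  have hc : ¬ (r : ℤ) ∣ c0 := by
    intro hd
    have := (Nat.prime_dvd_prime_iff_eq hr hc0).1 (Int.natCast_dvd_natCast.1 hd)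
    omega
  refine ⟨fun i m j _ _ _ _ h5 => hc ?_, fun m j _ _ h3 => ?_, fun i _ h2 => hc ?_⟩
  · have e : (c0 : ℤ) = (c0 + 2 * x i + x j - x m) - 2 * x i - x j + x m := by ring
    rw [e]
    exact dvd_add (dvd_sub (dvd_sub h5 (Dvd.dvd.mul_left (hx i) _)) (hx j)) (hx m)
  · have := h.W_lt m
    omega
  · have e : (c0 : ℤ) = (c0 + 2 * x i) - 2 * x i := by ring
    rw [e]
    exact dvd_sub h2 (Dvd.dvd.mul_left (hx i) _)

/-- the primes `q l` -/
lemma good_q {W1 : ℕ} {q x : ℕ → ℕ} (h : Design W1 q x) (k l : ℕ) :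
    Good q x k (q l) (1 - 2 * x l) := by
  have hC : ∀ i, ¬ (q l : ℤ) ∣ 1 - 2 * x l + 2 * x i := by
    intro i hdvd
    have hq := h.big l
    rcases lt_or_ge l i with hi | hi
    · have h1 := h.q_dvd l i hi
      have h2 : (q l : ℤ) ∣ -1 := by
        have e : (-1 : ℤ) = (1 - 2 * x l + 2 * x i) - 2 * ((x i : ℤ) - (x l - 1)) := by ring
        rw [e]
        exact dvd_sub hdvd (Dvd.dvd.mul_left h1 _)
      have h3 : (q l : ℤ) ∣ 1 := by
        rwa [dvd_neg] at h2
      have h4 := Int.le_of_dvd one_pos h3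
      omega
    · have hx : x i ≤ x l := h.x_mono.monotone hi
      have h1 : (1 - 2 * x l + 2 * x i : ℤ) = 0 := by
        refine Int.eq_zero_of_abs_lt_dvd hdvd ?_
        rw [abs_lt]
        constructor <;> omega
      omega
  refine ⟨fun i m j h1 h2 h3 h4 h5 => ?_, fun m j h1 h2 h3 => ?_, fun i h1 => hC i⟩
  · -- `l < m < j`
    have hlm : l < m := h.q_mono.lt_iff_lt.1 h4
    have e1 := h.q_dvd l m hlm
    have e2 := h.q_dvd l j (hlm.trans h2)
    apply hC i
    have e : (1 - 2 * x l + 2 * x i : ℤ) = (1 - 2 * x l + 2 * x i + x j - x m) -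
        ((x j : ℤ) - (x l - 1)) + ((x m : ℤ) - (x l - 1)) := by ring
    rw [e]
    exact dvd_add (dvd_sub h5 e2) e1
  · have hlm : l = m := h.q_mono.injective h3
    subst hlm
    have e2 := h.q_dvd l j h1
    have e : (1 - 2 * x l + x j + x l : ℤ) = ((x j : ℤ) - (x l - 1)) := by ring
    rw [e]
    exact e2

/-- the other primes -/
lemma good_other {q x : ℕ → ℕ} (k : ℕ) {r : ℕ} (hr : r.Prime)
    (hk : k ^ 3 < r) (hq : ∀ l, r ≠ q l) : ∃ c : ℤ, Good q x k r c := by
  classical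
  obtain ⟨c, hc⟩ := exists_avoid hr
    (((range k ×ˢ (range k ×ˢ range k))).image
      (fun v : ℕ × ℕ × ℕ => (2 * x v.1 + x v.2.1 - x v.2.2 : ℤ))) (by
      refine card_image_le.trans_lt ?_
      rw [card_product, card_product, card_range]
      calc k * (k * k) = k ^ 3 := by ring
        _ < r := hk)
  have hc' : ∀ i j m, i < k → j < k → m < k → ¬ (r : ℤ) ∣ c + (2 * x i + x j - x m) := by
    intro i j m hi hj hm
    refine hc _ (mem_image.2 ⟨(i, j, m), ?_, rfl⟩)
    simp [hi, hj, hm]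
  refine ⟨c, fun i m j h1 h2 h3 h4 h5 => ?_, fun m j h1 h2 h3 => absurd h3 (hq m), fun i h1 h2 => ?_⟩
  · apply hc' i j m (by omega) h3 (by omega)
    have e : c + (2 * x i + x j - x m) = c + 2 * x i + x j - x m := by ring
    rw [e]; exact h5
  · apply hc' i i i h1 h1 h1
    have e : c + (2 * x i + x i - x i) = c + 2 * x i := by ring
    rw [e]; exact h2

/-- simultaneous congruences -/
lemma exists_crt (W1 : ℕ) (c0 : ℤ) (c : ℕ → ℤ) (P : Finset ℕ) (hP : ∀ p ∈ P, p.Prime)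
    (hPW : ∀ p ∈ P, ¬ p ∣ W1) :
    ∃ M : ℤ, (W1 : ℤ) ∣ M - c0 ∧ ∀ p ∈ P, (p : ℤ) ∣ M - c p := by
  classical
  induction P using Finset.induction_on with
  | empty => exact ⟨c0, by simp, by simp⟩
  | insert p P hp ih =>
    obtain ⟨M, hM1, hM2⟩ := ih (fun r hr => hP r (mem_insert_of_mem hr))
      (fun r hr => hPW r (mem_insert_of_mem hr))
    have hpp : p.Prime := hP p (mem_insert_self _ _)
    set Q : ℕ := W1 * ∏ r ∈ P, r with hQ
    have hcop : Nat.Coprime Q p := by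
      rw [Nat.coprime_comm, Nat.Prime.coprime_iff_not_dvd hpp, hQ]
      intro hd
      rcases (Nat.Prime.dvd_mul hpp).1 hd with h1 | h1
      · exact hPW p (mem_insert_self _ _) h1
      · obtain ⟨r, hr, hpr⟩ := (hpp.prime.dvd_finsetProd_iff _).1 h1
        have := (Nat.prime_dvd_prime_iff_eq hpp (hP r (mem_insert_of_mem hr))).1 hpr
        exact hp (this ▸ hr)
    obtain ⟨u, v, huv⟩ := Nat.isCoprime_iff_coprime.2 hcop
    refine ⟨M + Q * (u * (c p - M)), ?_, ?_⟩
    · have h1 : (W1 : ℤ) ∣ Q := Int.natCast_dvd_natCast.2 (Dvd.intro _ rfl)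
      have e : M + Q * (u * (c p - M)) - c0 = (M - c0) + Q * (u * (c p - M)) := by ring
      rw [e]
      exact dvd_add hM1 (Dvd.dvd.mul_right h1 _)
    · intro r hr
      rcases mem_insert.1 hr with h1 | h1
      · subst h1
        have e : M + Q * (u * (c r - M)) - c r = (r : ℤ) * (v * (M - c r)) := by
          have : (u * Q - 1 : ℤ) = - (v * r) := by linarith
          have e2 : M + Q * (u * (c r - M)) - c r = (u * Q - 1) * (c r - M) := by ring
          rw [e2, this]; ring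
        rw [e]
        exact Dvd.intro _ rfl
      · have h2 : (r : ℤ) ∣ Q := Int.natCast_dvd_natCast.2
          (Dvd.dvd.mul_left (dvd_prod_of_mem (fun r => r) h1) _)
        have e : M + Q * (u * (c p - M)) - c r = (M - c r) + Q * (u * (c p - M)) := by ring
        rw [e]
        exact dvd_add (hM2 r h1) (Dvd.dvd.mul_right h2 _)

end Pool.Agent.K7.H69.GR
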