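import Pool.Agent.K7.H69.GR.A

/-! The path of the gcd recursion for `N = M + x i + x j`. -/

set_option autoImplicit false

namespace Pool.Agent.K7.H69.GR

open Finset

/-- the recursion of the problem -/
def IsRec (N : ℤ) (a : ℕ → ℤ) : Prop :=
  a 1 = N - 2 ∧ ∀ n : ℕ, 2 ≤ n →
    a n = a (n - 1) - ((Int.gcd (a (n - 1)) (N - (-1) ^ n * (N - n)) : ℕ) : ℤ)

/-- the number of the indices `n ≤ g` for which the gcd is not `1` -/
noncomputable def nontrivial (N : ℤ) (a : ℕ → ℤ) (g : ℕ) : ℕ :=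
  ((Icc 2 g).filter (fun n : ℕ => Int.gcd (a (n - 1)) (N - (-1) ^ n * (N - n)) ≠ 1)).card

lemma nontrivial_mono (N : ℤ) (a : ℕ → ℤ) {g g' : ℕ} (h : g ≤ g') :
    nontrivial N a g ≤ nontrivial N a g' := by
  apply card_le_card
  intro n hn
  rw [mem_filter, mem_Icc] at hn ⊢
  exact ⟨⟨hn.1.1, hn.1.2.trans h⟩, hn.2⟩

lemma nontrivial_succ (N : ℤ) (a : ℕ → ℤ) {s n : ℕ} (h : s ≤ n) (hn : 1 ≤ n)
    (hg : Int.gcd (a n) (N - (-1) ^ (n + 1) * (N - ((n + 1 : ℕ) : ℤ))) ≠ 1) :
    nontrivial N a s + 1 ≤ nontrivial N a (n + 1) := by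
  unfold nontrivial
  rw [← card_insert_of_notMem (a := n + 1) (s := (Icc 2 s).filter (fun n : ℕ =>
    Int.gcd (a (n - 1)) (N - (-1) ^ n * (N - n)) ≠ 1)) (by
      rw [mem_filter, mem_Icc]
      rintro ⟨⟨_, h2⟩, _⟩
      omega)]
  apply card_le_card
  intro x hx
  rcases mem_insert.1 hx with h1 | h1
  · subst h1
    rw [mem_filter, mem_Icc]
    refine ⟨⟨by omega, le_rfl⟩, ?_⟩
    rw [Nat.add_sub_cancel]
    exact hg
  · rw [mem_filter, mem_Icc] at h1 ⊢
    exact ⟨⟨h1.1.1, by omega⟩, h1.2⟩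

/-- no event: all gcds are `1` -/
lemma run {N : ℤ} {a : ℕ → ℤ} (ha : IsRec N a) {e : ℤ} {s t : ℕ} (hs : 1 ≤ s)
    (h0 : a s = N - 1 - s - e)
    (hE : ∀ n : ℕ, s < n → n ≤ t → Even n → ∀ p : ℕ, p.Prime → (p : ℤ) ∣ n → ¬ (p : ℤ) ∣ N - e)
    (hO : ∀ n : ℕ, s < n → n ≤ t → Odd n → ∀ p : ℕ, p.Prime → (p : ℤ) ∣ n + 2 * e →
      ¬ (p : ℤ) ∣ N + e) :
    ∀ n, s ≤ n → n ≤ t → a n = N - 1 - n - e := by
  intro n hn
  induction n, hn using Nat.le_induction with
  | base => exact fun _ => h0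
  | succ n hn ih =>
    intro hnt
    have h1 := ih (by omega)
    have h2 := ha.2 (n + 1) (by omega)
    rw [Nat.add_sub_cancel] at h2
    have hg : Int.gcd (a n) (N - (-1) ^ (n + 1) * (N - ((n + 1 : ℕ) : ℤ))) = 1 := by
      by_contra hne
      obtain ⟨p, hp, hpd⟩ := Nat.exists_prime_and_dvd hne
      have h3 : (p : ℤ) ∣ a n := (Int.natCast_dvd_natCast.2 hpd).trans (Int.gcd_dvd_left _ _)
      have h4 : (p : ℤ) ∣ N - (-1) ^ (n + 1) * (N - ((n + 1 : ℕ) : ℤ)) :=
        (Int.natCast_dvd_natCast.2 hpd).trans (Int.gcd_dvd_right _ _)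
      rw [h1] at h3
      rcases Nat.even_or_odd (n + 1) with hev | hod
      · rw [hev.neg_one_pow] at h4
        have h5 : (p : ℤ) ∣ ((n + 1 : ℕ) : ℤ) := by
          have e1 : ((n + 1 : ℕ) : ℤ) = N - 1 * (N - ((n + 1 : ℕ) : ℤ)) := by ring
          rw [e1]; exact h4
        refine hE (n + 1) (by omega) hnt hev p hp h5 ?_
        have e1 : N - e = (N - 1 - n - e) + ((n + 1 : ℕ) : ℤ) := by push_cast; ring
        rw [e1]
        exact dvd_add h3 h5
      · rw [hod.neg_one_pow] at h4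
        have h5 : (p : ℤ) ∣ N + e := by
          have e1 : N + e = (N - (-1) * (N - ((n + 1 : ℕ) : ℤ))) - (N - 1 - n - e) := by
            push_cast; ring
          rw [e1]; exact dvd_sub h4 h3
        refine hO (n + 1) (by omega) hnt hod p hp ?_ h5
        have e1 : ((n + 1 : ℕ) : ℤ) + 2 * e = (N + e) - (N - 1 - n - e) := by
          push_cast; ring
        rw [e1]
        exact dvd_sub h5 h3
    rw [hg, h1] at h2
    rw [h2]
    push_cast; ring

/-- an event at odd time `n + 1`, with prime `q = n + 1 + 2 e` dividing `N + e` -/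
lemma event {N : ℤ} {a : ℕ → ℤ} (ha : IsRec N a) {e : ℤ} {n q : ℕ} (hn : 1 ≤ n)
    (h0 : a n = N - 1 - n - e) (hodd : Odd (n + 1)) (hq : (q : ℤ) = n + 1 + 2 * e)
    (hd : (q : ℤ) ∣ N + e) : a (n + 1) = N - 1 - (n + 1) - (e + q - 1) ∧
      Int.gcd (a n) (N - (-1) ^ (n + 1) * (N - ((n + 1 : ℕ) : ℤ))) = q := by
  have h2 := ha.2 (n + 1) (by omega)
  rw [Nat.add_sub_cancel, hodd.neg_one_pow] at h2
  have h3 : a n = (N + e) - q := by rw [h0, hq]; ring
  have h4 : N - (-1) * (N - ((n + 1 : ℕ) : ℤ)) = 2 * (N + e) - q := by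
    rw [hq]; push_cast; ring
  have hg : Int.gcd (a n) (N - (-1) * (N - ((n + 1 : ℕ) : ℤ))) = q := by
    rw [h3, h4]
    apply Nat.dvd_antisymm
    · have h5 : ((Int.gcd ((N + e) - q) (2 * (N + e) - q) : ℕ) : ℤ) ∣ (N + e) - q :=
        Int.gcd_dvd_left _ _
      have h6 : ((Int.gcd ((N + e) - q) (2 * (N + e) - q) : ℕ) : ℤ) ∣ 2 * (N + e) - q :=
        Int.gcd_dvd_right _ _
      have h7 := dvd_sub h6 (Dvd.dvd.mul_left h5 2)
      have e1 : 2 * (N + e) - q - 2 * ((N + e) - q) = (q : ℤ) := by ring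
      rw [e1] at h7
      exact Int.natCast_dvd_natCast.1 h7
    · have h5 : (q : ℤ) ∣ (N + e) - q := dvd_sub hd dvd_rfl
      have h6 : (q : ℤ) ∣ 2 * (N + e) - q := dvd_sub (Dvd.dvd.mul_left hd 2) dvd_rfl
      exact Int.natCast_dvd_natCast.1 (Int.dvd_coe_gcd h5 h6)
  refine ⟨?_, by rw [hodd.neg_one_pow]; exact hg⟩
  rw [hg, h3] at h2
  rw [h2, hq]
  ring

/-- the path: `g_N + 1 = M + 2 x i` and `2 N - g_N - 1 = M + 2 x j` -/
lemma path {W1 : ℕ} {q x : ℕ → ℕ} (h : Design W1 q x) {k : ℕ} {M : ℕ}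
    (hM : 4 * q k < M)
    (hgood : ∀ r : ℕ, r.Prime → r ≤ q k → Good q x k r M)
    {i j : ℕ} (hij : i < j) (hjk : j < k)
    (hpi : (M + 2 * x i).Prime) (hpj : (M + 2 * x j).Prime)
    {a : ℕ → ℤ} (ha : IsRec ((M + x i + x j : ℕ) : ℤ) a) :
    IsLeast {n : ℕ | 2 ≤ n ∧ a n = 0} (M + 2 * x i - 1) ∧
      j - i ≤ nontrivial ((M + x i + x j : ℕ) : ℤ) a (M + 2 * x i - 1) := by
  have hxj : ∀ m, m ≤ j → 4 * x m + 10 < q k := by
    intro m hm
    have h1 := h.big m
    have h2 := h.q_mono.monotone (show m ≤ k by omega)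
    omega
  have hqk : ∀ m, m ≤ j → q m ≤ q k := fun m hm => h.q_mono.monotone (by omega)
  have hxm : ∀ m, i ≤ m → x i ≤ x m := fun m hm => h.x_mono.monotone hm
  have hxmj : ∀ m, m ≤ j → x m ≤ x j := fun m hm => h.x_mono.monotone hm
  have claim : ∀ m, i ≤ m → m ≤ j → ∃ s : ℕ, 1 ≤ s ∧ s + 2 * x m < q m + 2 * x i ∧
      a s = ((M + x i + x j : ℕ) : ℤ) - 1 - s - (x m - x i) ∧
      (∀ n, 1 ≤ n → n ≤ s → a n ≠ 0) ∧ m - i ≤ nontrivial ((M + x i + x j : ℕ) : ℤ) a s := by
    intro m hm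
    induction m, hm using Nat.le_induction with
    | base =>
      intro _
      have h1 := h.big i
      have h2 := ha.1
      refine ⟨1, le_rfl, by omega, ?_, ?_, by omega⟩
      · rw [h2]; push_cast; ring
      · intro n hn1 hn2
        have : n = 1 := by omega
        have h3 := hxj j le_rfl
        rw [this, h2]
        push_cast
        omega
    | succ m hm ih =>
      intro hmj
      obtain ⟨s, hs1, hs2, hs3, hs4, hs5⟩ := ih (by omega)
      have hmj' : m < j := by omega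
      have hxi := hxm m hm
      have hxq := hxj m (by omega)
      have hqm := hqk m (by omega)
      have hxs := h.xs m
      have hbig := h.big (m + 1)
      have hqodd := h.q_odd m
      -- the run
      obtain ⟨t, ht⟩ : ∃ t : ℕ, t + 1 + 2 * x m = q m + 2 * x i := ⟨q m + 2 * x i - 1 - 2 * x m, by omega⟩
      have hrun := run ha (e := (x m : ℤ) - x i) (s := s) (t := t) hs1 hs3 (by
        intro n hn1 hn2 hn3 p hp hpn hpd
        have h1 : p ≤ n := Nat.le_of_dvd (by omega) (Int.natCast_dvd_natCast.1 hpn)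
        refine (hgood p hp (by omega)).A i m j hm hmj' hjk (by omega) ?_
        have e1 : (M : ℤ) + 2 * x i + x j - x m = ((M + x i + x j : ℕ) : ℤ) - (x m - x i) := by
          push_cast; ring
        rw [e1]; exact hpd) (by
        intro n hn1 hn2 hn3 p hp hpn hpd
        have h1 : (p : ℤ) ≤ n + 2 * (x m - x i) := Int.le_of_dvd (by omega) hpn
        refine (hgood p hp (by omega)).A m m j le_rfl hmj' hjk (by omega) ?_
        have e1 : (M : ℤ) + 2 * x m + x j - x m = ((M + x i + x j : ℕ) : ℤ) + (x m - x i) := by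
          push_cast; ring
        rw [e1]; exact hpd)
      have hst : s ≤ t := by omega
      obtain ⟨hev, hev2⟩ := event ha (e := (x m : ℤ) - x i) (n := t) (q := q m) (by omega)
        (hrun t hst le_rfl) (by
          have h1 : t + 1 = q m + 2 * x i - 2 * x m := by omega
          obtain ⟨u, hu⟩ := hqodd
          exact ⟨u + x i - x m, by omega⟩) (by omega) (by
          have h1 := (hgood (q m) (h.prime m) hqm).B m j hmj' hjk rfl
          have e1 : ((M + x i + x j : ℕ) : ℤ) + (x m - x i) = M + x j + x m := by push_cast; ring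
          rw [e1]; exact h1)
      have hval : a (t + 1) = ((M + x i + x j : ℕ) : ℤ) - 1 - ((t + 1 : ℕ) : ℤ) -
          (x (m + 1) - x i) := by
        rw [hev]
        have : (x (m + 1) : ℤ) + 1 = x m + q m := by exact_mod_cast hxs
        push_cast
        linarith
      have hnt := nontrivial_succ ((M + x i + x j : ℕ) : ℤ) a hst (by omega) (by
        rw [hev2]
        exact (h.prime m).one_lt.ne')
      refine ⟨t + 1, by omega, by omega, hval, ?_, by omega⟩
      intro n hn1 hn2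
      rcases le_or_gt n s with hns | hns
      · exact hs4 n hn1 hns
      · rcases Nat.lt_or_ge t n with htn | htn
        · have : n = t + 1 := by omega
          rw [this, hval]
          have h5 := hxmj (m + 1) hmj
          have h6 := hxj j le_rfl
          push_cast
          omega
        · rw [hrun n (by omega) htn]
          push_cast
          omega
  obtain ⟨s, hs1, hs2, hs3, hs4, hs5⟩ := claim j hij.le le_rfl
  have hxi := hxm j hij.le
  have hxq := hxj j le_rfl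
  have hqj := hqk j le_rfl
  have hrun := run ha (e := (x j : ℤ) - x i) (s := s) (t := M + 2 * x i - 1) hs1 hs3 (by
    intro n hn1 hn2 hn3 p hp hpn hpd
    have h1 : p ≤ n := Nat.le_of_dvd (by omega) (Int.natCast_dvd_natCast.1 hpn)
    have e1 : ((M + x i + x j : ℕ) : ℤ) - (x j - x i) = ((M + 2 * x i : ℕ) : ℤ) := by
      push_cast; ring
    rw [e1] at hpd
    have h2 := (Nat.prime_dvd_prime_iff_eq hp hpi).1 (Int.natCast_dvd_natCast.1 hpd)
    omega) (by
    intro n hn1 hn2 hn3 p hp hpn hpd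
    have h1 : (p : ℤ) ≤ n + 2 * (x j - x i) := Int.le_of_dvd (by omega) hpn
    have e1 : ((M + x i + x j : ℕ) : ℤ) + (x j - x i) = ((M + 2 * x j : ℕ) : ℤ) := by
      push_cast; ring
    rw [e1] at hpd
    have h2 := (Nat.prime_dvd_prime_iff_eq hp hpj).1 (Int.natCast_dvd_natCast.1 hpd)
    omega)
  refine ⟨⟨⟨by omega, ?_⟩, ?_⟩, hs5.trans (nontrivial_mono _ _ (by omega))⟩
  · rw [hrun _ (by omega) le_rfl]
    push_cast
    omega
  · rintro n ⟨hn1, hn2⟩
    by_contra hlt
    push Not at hlt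
    rcases le_or_gt n s with hns | hns
    · exact hs4 n (by omega) hns hn2
    · rw [hrun n hns.le (by omega)] at hn2
      push_cast at hn2
      omega

end Pool.Agent.K7.H69.GR
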