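import Pool.Agent.K7.H69.GR.B
import Pool.Agent.H361R2.GMain
import Pool.Agent.H361R2.Bridge

/-! Application of the Maynard-Tao theorem. -/

set_option autoImplicit false

namespace Pool.Agent.K7.H69.GR

open Finset Pool.Agent.H361R2

lemma setup (b c k : ℕ) (hb : 0 < b) (hc : c.Coprime b) :
    ∃ (W1 : ℕ) (q x : ℕ → ℕ), Design W1 q x ∧ b ∣ W1 ∧ ∃ Mod M0 : ℕ, 0 < Mod ∧ 4 * q k < M0 ∧
      (∀ r : ℕ, r.Prime → (r ∣ Mod ↔ r ≤ q k)) ∧ M0 ≡ c [MOD b] ∧ b ∣ Mod ∧
      ∀ r : ℕ, r.Prime → r ≤ q k → ∀ n : ℕ, Good q x k r ((Mod * n + M0 : ℕ) : ℤ) := by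
  classical
  set W1 : ℕ := b * (k ^ 3 + 2).factorial with hW1
  have hW1pos : 0 < W1 := Nat.mul_pos hb (Nat.factorial_pos _)
  have hbW : b ∣ W1 := Dvd.intro _ rfl
  obtain ⟨q, x, hD⟩ := exists_design W1 hW1pos
  set P : Finset ℕ := (range (q k + 1)).filter (fun r => r.Prime ∧ ¬ r ∣ W1) with hP
  have hres : ∀ r : ℕ, ∃ cr : ℤ, r ∈ P → Good q x k r cr := by
    intro r
    by_cases hr : r ∈ P
    · have hr' := (mem_filter.1 hr).2
      by_cases hl : ∃ l, r = q l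
      · obtain ⟨l, rfl⟩ := hl
        exact ⟨_, fun _ => good_q hD k l⟩
      · push Not at hl
        have hk : k ^ 3 < r := by
          by_contra hlt
          push Not at hlt
          exact hr'.2 (Dvd.dvd.mul_left ((hr'.1.dvd_factorial).2 (by omega)) _)
        obtain ⟨cr, hcr⟩ := good_other (q := q) (x := x) k hr'.1 hk hl
        exact ⟨cr, fun _ => hcr⟩
    · exact ⟨0, fun h => absurd h hr⟩
  choose cc hcc using hres
  obtain ⟨c0, hc0p, hc0W, hc0b⟩ := exists_prime_mod b W1 c hb hc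
  obtain ⟨M, hM1, hM2⟩ := exists_crt W1 (c0 : ℤ) cc P (fun p hp => (mem_filter.1 hp).2.1)
    (fun p hp => (mem_filter.1 hp).2.2)
  set Mod : ℕ := W1 * ∏ r ∈ P, r with hMod
  have hModpos : 0 < Mod := Nat.mul_pos hW1pos
    (Finset.prod_pos (fun r hr => (mem_filter.1 hr).2.1.pos))
  have hrMod : ∀ r : ℕ, r.Prime → r ≤ q k → r ∣ Mod := by
    intro r hr hrk
    by_cases hrW : r ∣ W1
    · exact Dvd.dvd.mul_right hrW _
    · have hrP : r ∈ P := mem_filter.2 ⟨mem_range.2 (by omega), hr, hrW⟩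
      exact Dvd.dvd.mul_left (dvd_prod_of_mem (fun r => r) hrP) _
  set M0 : ℕ := (M % (Mod : ℤ)).toNat + Mod * (4 * q k + 1) with hM0
  have hM0d : (Mod : ℤ) ∣ (M0 : ℤ) - M := by
    have h1 : ((M % (Mod : ℤ)).toNat : ℤ) = M % (Mod : ℤ) :=
      Int.toNat_of_nonneg (Int.emod_nonneg _ (by exact_mod_cast hModpos.ne'))
    have h2 : (M0 : ℤ) - M = (Mod : ℤ) * (4 * q k + 1) - (M - M % (Mod : ℤ)) := by
      rw [hM0]; push_cast
      rw [h1]; ring
    rw [h2]
    exact dvd_sub (Dvd.intro _ rfl) (Int.dvd_self_sub_emod)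
  have hdiff : ∀ (r n : ℕ), r ∣ Mod → (r : ℤ) ∣ ((Mod * n + M0 : ℕ) : ℤ) - M := by
    intro r n hr
    have e : ((Mod * n + M0 : ℕ) : ℤ) - M = (Mod : ℤ) * n + ((M0 : ℤ) - M) := by
      push_cast; ring
    rw [e]
    have hr' : (r : ℤ) ∣ (Mod : ℤ) := Int.natCast_dvd_natCast.2 hr
    exact dvd_add (Dvd.dvd.mul_right hr' _) (hr'.trans hM0d)
  have hbMod : b ∣ Mod := hbW.trans (Dvd.intro _ rfl)
  have hM0big : 4 * q k < M0 := by
    have h1 : 4 * q k + 1 ≤ Mod * (4 * q k + 1) := Nat.le_mul_of_pos_left _ hModpos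
    omega
  refine ⟨W1, q, x, hD, hbW, Mod, M0, hModpos, hM0big, ?_, ?_, hbMod, ?_⟩
  · intro r hr
    refine ⟨fun hrd => ?_, hrMod r hr⟩
    rcases (Nat.Prime.dvd_mul hr).1 hrd with h1 | h1
    · have h2 := Nat.le_of_dvd hW1pos h1
      have h3 := hD.W_lt k
      omega
    · obtain ⟨s, hs, hrs⟩ := (hr.prime.dvd_finsetProd_iff _).1 h1
      have h2 := (Nat.prime_dvd_prime_iff_eq hr (mem_filter.1 hs).2.1).1 hrs
      have h3 := mem_range.1 (mem_filter.1 hs).1
      omega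
  · -- `M0 ≡ c0 ≡ c`
    have h1 : (b : ℤ) ∣ (M0 : ℤ) - M := by
      have := hdiff b 0 hbMod
      simpa using this
    have h2 : (b : ℤ) ∣ M - c0 := (Int.natCast_dvd_natCast.2 hbW).trans hM1
    have h3 : (b : ℤ) ∣ (M0 : ℤ) - c0 := by
      have e : (M0 : ℤ) - c0 = (M0 - M) + (M - c0) := by ring
      rw [e]; exact dvd_add h1 h2
    exact ((Nat.modEq_iff_dvd.2 h3).symm).trans hc0b
  · intro r hr hrk n
    have hd := hdiff r n (hrMod r hr hrk)
    by_cases hrW : r ∣ W1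
    · refine (good_of_dvd hD hW1pos k hr hrW hc0p hc0W).congr ?_
      have e : ((Mod * n + M0 : ℕ) : ℤ) - c0 = (((Mod * n + M0 : ℕ) : ℤ) - M) + (M - c0) := by ring
      rw [e]
      exact dvd_add hd ((Int.natCast_dvd_natCast.2 hrW).trans hM1)
    · have hrP : r ∈ P := mem_filter.2 ⟨mem_range.2 (by omega), hr, hrW⟩
      refine (hcc r hrP).congr ?_
      have e : ((Mod * n + M0 : ℕ) : ℤ) - cc r =
        (((Mod * n + M0 : ℕ) : ℤ) - M) + (M - cc r) := by ring
      rw [e]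
      exact dvd_add hd (hM2 r hrP)

/-- the setup with all the numbers `M + t`, `t ≤ 2 x k`, `t ≠ 2 x i`, composite -/
lemma setup_string (b c k : ℕ) (hb : 0 < b) (hc : c.Coprime b) :
    ∃ (W1 : ℕ) (q x : ℕ → ℕ), Design W1 q x ∧ ∃ Mod M0 : ℕ, 0 < Mod ∧ 4 * q k < M0 ∧
      (∀ r : ℕ, r.Prime → r ≤ q k → r ∣ Mod) ∧
      (∀ r : ℕ, r.Prime → r ∣ Mod → ∀ i, i < k → ∀ n : ℕ, ¬ r ∣ Mod * n + M0 + 2 * x i) ∧
      (∀ t : ℕ, t ≤ 2 * x k → (∀ i, i < k → t ≠ 2 * x i) → ∀ n : ℕ,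
        ¬ (Mod * n + M0 + t).Prime) ∧
      (∀ i, i < k → ∀ n : ℕ, Mod * n + M0 + 2 * x i ≡ c [MOD b]) ∧
      ∀ r : ℕ, r.Prime → r ≤ q k → ∀ n : ℕ, Good q x k r ((Mod * n + M0 : ℕ) : ℤ) := by
  classical
  obtain ⟨W1, q, x, hD, hbW, Mod1, M1, hMod1, hM1, hr1, hM1c, hbMod1, hgood⟩ := setup b c k hb hc
  set T : Finset ℕ := (range (2 * x k + 1)).filter (fun t => ∀ i, i < k → t ≠ 2 * x i) with hT
  set R : ℕ → ℕ := fun t => Nat.nth Nat.Prime (q k + 2 * x k + 1 + t) with hR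
  have hRp : ∀ t, (R t).Prime := fun t => Nat.prime_nth_prime _
  have hRgt : ∀ t, q k + 2 * x k < R t := by
    intro t
    have h1 : q k + 2 * x k + 1 + t ≤ Nat.nth Nat.Prime (q k + 2 * x k + 1 + t) :=
      (Nat.nth_strictMono Nat.infinite_setOfPred_prime).le_apply
    show q k + 2 * x k < Nat.nth Nat.Prime (q k + 2 * x k + 1 + t)
    omega
  have hRinj : Function.Injective R := by
    intro s t hst
    have := (Nat.nth_strictMono Nat.infinite_setOfPred_prime).injective hst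
    omega
  set P : Finset ℕ := T.image R with hP
  have hres : ∀ r : ℕ, ∃ cr : ℤ, r ∈ P → ∃ t ∈ T, R t = r ∧ cr = -(t : ℤ) := by
    intro r
    by_cases hr : r ∈ P
    · obtain ⟨t, ht, htr⟩ := mem_image.1 hr
      exact ⟨-(t : ℤ), fun _ => ⟨t, ht, htr, rfl⟩⟩
    · exact ⟨0, fun h => absurd h hr⟩
  choose cc hcc using hres
  have hPp : ∀ p ∈ P, p.Prime := by
    intro p hp
    obtain ⟨t, _, rfl⟩ := mem_image.1 hp
    exact hRp t
  have hPn : ∀ p ∈ P, ¬ p ∣ Mod1 := by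
    intro p hp hd
    have h1 := (hr1 p (hPp p hp)).1 hd
    obtain ⟨t, _, rfl⟩ := mem_image.1 hp
    have := hRgt t
    omega
  obtain ⟨M, hMa, hMb⟩ := exists_crt Mod1 (M1 : ℤ) cc P hPp hPn
  set Mod : ℕ := Mod1 * ∏ r ∈ P, r with hMod
  have hModpos : 0 < Mod := Nat.mul_pos hMod1 (Finset.prod_pos (fun r hr => (hPp r hr).pos))
  have h1Mod : Mod1 ∣ Mod := Dvd.intro _ rfl
  have hPMod : ∀ r ∈ P, r ∣ Mod := fun r hr =>
    Dvd.dvd.mul_left (dvd_prod_of_mem (fun r => r) hr) _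
  set M0 : ℕ := (M % (Mod : ℤ)).toNat + Mod * (4 * q k + 1) with hM0
  have hM0d : (Mod : ℤ) ∣ (M0 : ℤ) - M := by
    have h1 : ((M % (Mod : ℤ)).toNat : ℤ) = M % (Mod : ℤ) :=
      Int.toNat_of_nonneg (Int.emod_nonneg _ (by exact_mod_cast hModpos.ne'))
    have h2 : (M0 : ℤ) - M = (Mod : ℤ) * (4 * q k + 1) - (M - M % (Mod : ℤ)) := by
      rw [hM0]; push_cast
      rw [h1]; ring
    rw [h2]
    exact dvd_sub (Dvd.intro _ rfl) (Int.dvd_self_sub_emod)
  have hM0big : 4 * q k < M0 := by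
    have h1 : 4 * q k + 1 ≤ Mod * (4 * q k + 1) := Nat.le_mul_of_pos_left _ hModpos
    omega
  have hM0Mod : Mod < M0 := by
    have h1 := (hD.prime k).pos
    have h2 : Mod * 2 ≤ Mod * (4 * q k + 1) := Nat.mul_le_mul_left _ (by omega)
    omega
  have hdiff : ∀ (r n : ℕ), r ∣ Mod → (r : ℤ) ∣ ((Mod * n + M0 : ℕ) : ℤ) - M := by
    intro r n hr
    have e : ((Mod * n + M0 : ℕ) : ℤ) - M = (Mod : ℤ) * n + ((M0 : ℤ) - M) := by
      push_cast; ring
    rw [e]
    have hr' : (r : ℤ) ∣ (Mod : ℤ) := Int.natCast_dvd_natCast.2 hr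
    exact dvd_add (Dvd.dvd.mul_right hr' _) (hr'.trans hM0d)
  have hdiff1 : ∀ (r n : ℕ), r ∣ Mod1 → (r : ℤ) ∣ ((Mod * n + M0 : ℕ) : ℤ) - M1 := by
    intro r n hr
    have e : ((Mod * n + M0 : ℕ) : ℤ) - M1 = (((Mod * n + M0 : ℕ) : ℤ) - M) + (M - M1) := by ring
    rw [e]
    exact dvd_add (hdiff r n (hr.trans h1Mod)) ((Int.natCast_dvd_natCast.2 hr).trans hMa)
  have hg : ∀ r : ℕ, r.Prime → r ≤ q k → ∀ n : ℕ, Good q x k r ((Mod * n + M0 : ℕ) : ℤ) := by
    intro r hr hrk n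
    refine (hgood r hr hrk 0).congr ?_
    have := hdiff1 r n ((hr1 r hr).2 hrk)
    simpa using this
  have hRd : ∀ t ∈ T, ∀ n : ℕ, (R t : ℤ) ∣ ((Mod * n + M0 + t : ℕ) : ℤ) := by
    intro t ht n
    have hRP : R t ∈ P := mem_image_of_mem _ ht
    obtain ⟨t', ht', htt, hcr⟩ := hcc (R t) hRP
    have htt' : t' = t := hRinj htt
    have h1 := hdiff (R t) n (hPMod _ hRP)
    have h2 := hMb (R t) hRP
    rw [hcr, htt'] at h2
    have e : ((Mod * n + M0 + t : ℕ) : ℤ) = (((Mod * n + M0 : ℕ) : ℤ) - M) + (M - -(t : ℤ)) := by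
      push_cast; ring
    rw [e]
    exact dvd_add h1 h2
  refine ⟨W1, q, x, hD, Mod, M0, hModpos, hM0big, fun r hr hrk => ((hr1 r hr).2 hrk).trans h1Mod,
    ?_, ?_, ?_, hg⟩
  · intro r hr hrd i hi n hdvd
    rcases (Nat.Prime.dvd_mul hr).1 hrd with h1 | h1
    · refine (hg r hr ((hr1 r hr).1 h1) n).C i hi ?_
      have e : ((Mod * n + M0 : ℕ) : ℤ) + 2 * x i = ((Mod * n + M0 + 2 * x i : ℕ) : ℤ) := by
        push_cast; ring
      rw [e]
      exact Int.natCast_dvd_natCast.2 hdvd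
    · obtain ⟨s, hs, hrs⟩ := (hr.prime.dvd_finsetProd_iff _).1 h1
      have h2 := (Nat.prime_dvd_prime_iff_eq hr (hPp s hs)).1 hrs
      subst h2
      obtain ⟨t, ht, rfl⟩ := mem_image.1 hs
      have h3 := hRd t ht n
      have h4 : (R t : ℤ) ∣ 2 * x i - t := by
        have e : (2 * x i - t : ℤ) = ((Mod * n + M0 + 2 * x i : ℕ) : ℤ) -
          ((Mod * n + M0 + t : ℕ) : ℤ) := by push_cast; ring
        rw [e]
        exact dvd_sub (Int.natCast_dvd_natCast.2 hdvd) h3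
      obtain ⟨ht1, ht2⟩ := mem_filter.1 ht
      have ht3 := mem_range.1 ht1
      have ht4 := ht2 i hi
      have hgt := hRgt t
      have hxx : x i ≤ x k := hD.x_mono.monotone hi.le
      have h5 : (2 * x i - t : ℤ) = 0 := by
        refine Int.eq_zero_of_abs_lt_dvd h4 ?_
        rw [abs_lt]
        constructor <;> omega
      omega
  · intro t ht1 ht2 n hp
    have ht : t ∈ T := mem_filter.2 ⟨mem_range.2 (by omega), ht2⟩
    have h3 := Int.natCast_dvd_natCast.1 (hRd t ht n)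
    have h4 := (Nat.prime_dvd_prime_iff_eq (hRp t) hp).1 h3
    have h5 := Nat.le_of_dvd hModpos (hPMod _ (mem_image_of_mem R ht))
    omega
  · intro i hi n
    have hbx : x i ≡ 0 [MOD b] := by
      have h9 := hD.W_dvd i
      exact (Nat.modEq_zero_iff_dvd).2 (hbW.trans (Int.natCast_dvd_natCast.1 h9))
    have h1 : Mod * n + M0 ≡ M1 [MOD b] := by
      have := hdiff1 b n hbMod1
      exact (Nat.modEq_iff_dvd.2 this).symm
    have := (h1.trans hM1c).add (hbx.mul_left 2)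
    simpa using this

/-- For `N = (p + p') / 2`: `N` is composite, and the recursion for `N` returns the pair `p, p'`,
that is `g_N + 1 = p` and `2 N - g_N - 1 = p'`; and among its gcds at least as many are nontrivial as
there are primes in `(p, p']`. -/
def Returns (p p' : ℕ) : Prop :=
  ∃ N : ℕ, 2 * N = p + p' ∧ ¬ N.Prime ∧ ∀ a : ℕ → ℤ, IsRec N a →
    ∃ g : ℕ, IsLeast {n : ℕ | 2 ≤ n ∧ a n = 0} g ∧ g + 1 = p ∧ 2 * N - g - 1 = p' ∧
      ((Ioc p p').filter Nat.Prime).card ≤ nontrivial N a g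

/-- All primes of `[M, M + C]` are `≡ c (mod b)`, there are at least `m` of them, and every pair of
them is returned by the recursion. -/
def GoodInterval (b c m C M : ℕ) : Prop :=
  m ≤ ((Icc M (M + C)).filter Nat.Prime).card ∧
  (∀ p ∈ Icc M (M + C), p.Prime → p ≡ c [MOD b]) ∧
  ∀ p ∈ Icc M (M + C), ∀ p' ∈ Icc M (M + C), p.Prime → p'.Prime → p < p' → Returns p p'

lemma goodInterval_of {b c k m W1 : ℕ} {q x : ℕ → ℕ} (h : Design W1 q x) {M : ℕ}
    (hM : 4 * q k < M)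
    (hcomp : ∀ t : ℕ, t ≤ 2 * x k → (∀ i, i < k → t ≠ 2 * x i) → ¬ (M + t).Prime)
    (hc : ∀ i, i < k → M + 2 * x i ≡ c [MOD b])
    (hgood : ∀ r : ℕ, r.Prime → r ≤ q k → Good q x k r M)
    (hm : m ≤ (univ.filter (fun i : Fin k => (M + 2 * x i).Prime)).card) :
    GoodInterval b c m (2 * x k) M := by
  classical
  have key : ∀ p ∈ Icc M (M + 2 * x k), p.Prime → ∃ i : Fin k, p = M + 2 * x i := by
    intro p hp hpp
    rw [mem_Icc] at hp
    by_contra hcon
    push Not at hcon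
    refine hcomp (p - M) (by omega) (fun i hi heq => hcon ⟨i, hi⟩ ?_) ?_
    · show p = M + 2 * x i
      omega
    · have : M + (p - M) = p := by omega
      rw [this]; exact hpp
  refine ⟨?_, ?_, ?_⟩
  · refine hm.trans ?_
    rw [← card_image_of_injective (univ.filter (fun i : Fin k => (M + 2 * x i).Prime))
      (f := fun i : Fin k => M + 2 * x i) (by
        intro i j hij
        have h1 : x i = x j := by
          simp only at hij
          omega
        exact Fin.ext (h.x_mono.injective h1))]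
    apply card_le_card
    intro p hp
    obtain ⟨i, hi, rfl⟩ := mem_image.1 hp
    have h1 : x i ≤ x k := h.x_mono.monotone i.2.le
    rw [mem_filter, mem_Icc]
    exact ⟨⟨by omega, by omega⟩, (mem_filter.1 hi).2⟩
  · intro p hp hpp
    obtain ⟨i, rfl⟩ := key p hp hpp
    exact hc i i.2
  · intro p hp p' hp' hpp hpp' hlt
    obtain ⟨i, rfl⟩ := key p hp hpp
    obtain ⟨j, rfl⟩ := key p' hp' hpp'
    have hxij : x i < x j := by omega
    have hij : (i : ℕ) < j := h.x_mono.lt_iff_lt.1 hxij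
    refine ⟨M + x i + x j, by ring, ?_, ?_⟩
    · intro hN
      have hq : q i ≤ q k := h.q_mono.monotone (by omega)
      have h1 := (hgood (q i) (h.prime i) hq).B i j hij j.2 rfl
      have h2 : q i ∣ M + x i + x j := by
        have : ((M + x i + x j : ℕ) : ℤ) = (M : ℤ) + x j + x i := by push_cast; ring
        rw [← Int.natCast_dvd_natCast, this]
        exact h1
      have h3 := (Nat.prime_dvd_prime_iff_eq (h.prime i) hN).1 h2
      omega
    · intro a ha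
      obtain ⟨h1, h2⟩ := path h hM hgood hij j.2 hpp hpp' ha
      have hpos := hpp.two_le
      refine ⟨M + 2 * x i - 1, h1, by omega, by omega, le_trans ?_ h2⟩
      have hsub : (Ioc (M + 2 * x i) (M + 2 * x j)).filter Nat.Prime ⊆
          (Ioc (i : ℕ) j).image (fun l => M + 2 * x l) := by
        intro p hp
        rw [mem_filter, mem_Ioc] at hp
        have hxj : x j ≤ x k := h.x_mono.monotone j.2.le
        obtain ⟨l, rfl⟩ := key p (by rw [mem_Icc]; omega) hp.2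
        rw [mem_image]
        refine ⟨l, ?_, rfl⟩
        rw [mem_Ioc]
        exact ⟨h.x_mono.lt_iff_lt.1 (by omega), h.x_mono.le_iff_le.1 (by omega)⟩
      refine (card_le_card hsub).trans (card_image_le.trans ?_)
      rw [Nat.card_Ioc]

end Pool.Agent.K7.H69.GR
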