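import Pool.Agent.K7.H69.GR.C
import Pool.Agent.Y884.GR.MTall

/-! The main theorem: intervals of primes all of whose pairs are returned by the recursion. -/

set_option autoImplicit false

namespace Pool.Agent.K7.H69.GR

open Finset Pool.Agent.H361R2

open Classical in
theorem main (b c m : ℕ) (hb : 0 < b) (hc : c.Coprime b) :
    ∃ C : ℕ, ∀ ε : ℝ, 0 < ε → ∃ X₀ : ℝ, ∀ X : ℝ, X₀ ≤ X →
      X ^ (1 - ε) ≤ (((Icc 1 ⌊X⌋₊).filter (fun M => GoodInterval b c m C M)).card : ℝ) := by
  obtain ⟨k, hk2, hMT⟩ := Pool.Agent.Y884.GR.maynardTaoAll (m + 1) (by omega)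
  obtain ⟨W1, q, x, hD, Mod, M0, hModpos, hM0, hrMod, hadm, hcomp, hcls, hgood⟩ :=
    setup_string b c k hb hc
  have hkq : k + 2 ≤ q k := by
    have h1 := hD.big k
    have h2 := hD.x_mono.le_apply (x := k)
    omega
  refine ⟨2 * x k, fun ε hε => ?_⟩
  obtain ⟨δ₀, hδ₀, hMT⟩ := hMT (fun _ => Mod) (fun i => M0 + 2 * x i)
    (fun _ => hModpos) (fun i => by omega) (by
      intro i j hij h
      have h1 := Nat.eq_of_mul_eq_mul_left hModpos h
      have h2 : x i = x j := by omega
      exact hij (Fin.ext (hD.x_mono.injective h2))) (by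
      intro p hp
      by_cases hpM : p ∣ Mod
      · refine ⟨1, fun h => hp.one_lt.ne' (Nat.dvd_one.1 h), fun i hdvd => ?_⟩
        refine hadm p hp hpM i i.2 1 ?_
        have : Mod * 1 + M0 + 2 * x i = Mod * 1 + (M0 + 2 * x i) := by ring
        rw [this]
        exact hdvd
      · have hpk : q k < p := by
          by_contra hle
          push Not at hle
          exact hpM (hrMod p hp hle)
        obtain ⟨n, hn⟩ := exists_avoid' (m := k + 1) hp (by omega)
          (Fin.cons 1 (fun _ => (Mod : ℤ))) (Fin.cons 0 (fun i => ((M0 + 2 * x i : ℕ) : ℤ))) (by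
            intro i
            refine Fin.cases ?_ (fun i => ?_) i
            · simp only [Fin.cons_zero]
              rintro ⟨h1, _⟩
              exact (Nat.prime_iff_prime_int.1 hp).not_isUnit (isUnit_of_dvd_one h1)
            · simp only [Fin.cons_succ]
              rintro ⟨h1, _⟩
              exact hpM (Int.natCast_dvd_natCast.1 h1))
        refine ⟨n, ?_, ?_⟩
        · intro h
          have := hn 0
          simp only [Fin.cons_zero, one_mul, add_zero] at this
          exact this (Int.natCast_dvd_natCast.2 h)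
        · intro i h
          have := hn i.succ
          simp only [Fin.cons_succ] at this
          exact this (by exact_mod_cast h))
  obtain ⟨x₀, hx₀⟩ := hMT (min δ₀ ε) (lt_min hδ₀ hε) (min_le_left _ _)
  set δ := min δ₀ ε with hδ
  have hδ0 : 0 < δ := lt_min hδ₀ hε
  have hδε : δ ≤ ε := min_le_right _ _
  have hWr : (0 : ℝ) < Mod := by exact_mod_cast hModpos
  have hW1 : (1 : ℝ) ≤ Mod := by exact_mod_cast hModpos
  have htend : Filter.Tendsto (fun X : ℝ => X ^ (ε / 2)) Filter.atTop Filter.atTop :=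
    tendsto_rpow_atTop (by linarith)
  obtain ⟨X₁, hX₁⟩ := Filter.eventually_atTop.mp (htend.eventually_ge_atTop (2 * (Mod : ℝ)))
  refine ⟨max (max X₁ 1) (max (2 * Mod * x₀) (2 * M0)), fun X hX => ?_⟩
  have hXX₁ : X₁ ≤ X := ((le_max_left _ _).trans (le_max_left _ _)).trans hX
  have hX1 : 1 ≤ X := ((le_max_right _ _).trans (le_max_left _ _)).trans hX
  have hXx₀ : 2 * Mod * x₀ ≤ X := ((le_max_left _ _).trans (le_max_right _ _)).trans hX
  have hXN : 2 * (M0 : ℝ) ≤ X := ((le_max_right _ _).trans (le_max_right _ _)).trans hX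
  have hX0 : 0 < X := by linarith
  have h2W : (1 : ℝ) ≤ 2 * Mod := by linarith
  have hy : x₀ ≤ X / (2 * Mod) := by
    rw [le_div_iff₀ (by linarith)]; linarith
  have hcount := hx₀ (X / (2 * Mod)) hy
  have hpow : X ^ (1 - ε) ≤ (X / (2 * Mod)) ^ (1 - δ / 2) := by
    rw [Real.div_rpow hX0.le (by linarith), le_div_iff₀ (by positivity)]
    have h1 : (2 * (Mod : ℝ)) ^ (1 - δ / 2) ≤ 2 * Mod := by
      calc (2 * (Mod : ℝ)) ^ (1 - δ / 2) ≤ (2 * (Mod : ℝ)) ^ (1 : ℝ) :=
            Real.rpow_le_rpow_of_exponent_le h2W (by linarith)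
        _ = 2 * Mod := Real.rpow_one _
    have h2 := hX₁ X hXX₁
    calc X ^ (1 - ε) * (2 * (Mod : ℝ)) ^ (1 - δ / 2) ≤ X ^ (1 - ε) * X ^ (ε / 2) := by
          apply mul_le_mul_of_nonneg_left (h1.trans h2) (by positivity)
      _ = X ^ (1 - ε / 2) := by
          rw [← Real.rpow_add hX0]; congr 1; ring
      _ ≤ X ^ (1 - δ / 2) := Real.rpow_le_rpow_of_exponent_le hX1 (by linarith)
  refine hpow.trans (hcount.trans ?_)
  rw [Nat.cast_le]
  apply card_le_card_of_injOn (fun ν => Mod * ν + M0)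
  · intro ν hν
    have hν' := mem_filter.mp (mem_coe.mp hν)
    obtain ⟨hν1, -, hν2⟩ := hν'
    rw [mem_Icc] at hν1
    have hνx : (ν : ℝ) ≤ X / (2 * Mod) :=
      (Nat.cast_le.2 hν1.2).trans (Nat.floor_le (by positivity))
    rw [le_div_iff₀ (by linarith)] at hνx
    apply mem_coe.mpr
    rw [mem_filter, mem_Icc]
    show (1 ≤ Mod * ν + M0 ∧ Mod * ν + M0 ≤ ⌊X⌋₊) ∧ GoodInterval b c m (2 * x k) (Mod * ν + M0)
    refine ⟨⟨by omega, ?_⟩, ?_⟩
    · apply Nat.le_floor
      push_cast
      linarith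
    · refine goodInterval_of hD (k := k) (by omega)
        (fun t ht1 ht2 => hcomp t ht1 ht2 ν) (fun i hi => hcls i hi ν)
        (fun r hr hrk => hgood r hr hrk ν) ?_
      refine le_trans (by omega : m ≤ m + 1 + 1) (hν2.trans (le_of_eq ?_))
      congr 1
      ext i
      simp only [mem_filter, mem_univ, true_and]
      have : Mod * ν + M0 + 2 * x i = Mod * ν + (M0 + 2 * x i) := by ring
      rw [this]
  · intro s _ t _ hst
    have h1 : Mod * s + M0 = Mod * t + M0 := hst
    have h2 : Mod * s = Mod * t := by omega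
    exact Nat.eq_of_mul_eq_mul_left hModpos h2

end Pool.Agent.K7.H69.GR
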